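import Mathlib
import Pool.Agent.Helper10.Ver.Std

/-!
MP_4e2054_co: over a field of characteristic not `2` with a nonzero derivation, the Grassmann
embedding of the dual polar space `Δ_n` is not relatively universal, for any `n ≥ 2`.
-/

set_option autoImplicit false

namespace Pool.Agent.Results.MP_4e2054_co.DerivationCover

open Pool.Agent.Helper10.Ver

/-- **Q1 is false.** First part: if `F` has characteristic not `2` and a nonzero derivation, then
for every `n ≥ 2` and every non-singular quadratic form of Witt index `n` in `2n + 1` variables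
over `F` the Grassmann embedding of `Δ_n` is not relatively universal. Second part: the universal
statement of Q1 fails. -/
theorem result :
    (∀ (F : Type) [Field F], (2 : F) ≠ 0 → (∃ D : Derivation ℤ F F, D ≠ 0) →
      ∀ n : ℕ, 2 ≤ n → ∀ (V : Type) [AddCommGroup V] [Module F V] (q : QuadraticForm F V),
        IsBnForm q n → ¬ GrassmannUniversal q n) ∧
    ¬ (∀ (F : Type) [Field F], (2 : F) ≠ 0 → Nat.card F ≠ 3 →
      ∀ n : ℕ, 2 ≤ n → ∀ (V : Type) [AddCommGroup V] [Module F V] (q : QuadraticForm F V),
        IsBnForm q n → GrassmannUniversal q n) := by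
  constructor
  · intro F _ h2 hD n hn V _ _ q hq
    obtain ⟨D, hD⟩ := hD
    obtain ⟨k, rfl⟩ : ∃ k, n = k + 2 := ⟨n - 2, by omega⟩
    exact not_relativelyUniversal h2 D hD hq.2.1 hq.1 hq.2.2
  · intro h
    have h2 : (2 : RatFunc ℚ) ≠ 0 := two_ne_zero
    have hinf : Infinite (RatFunc ℚ) := inferInstance
    refine ratFunc_counterexample 0 (h (RatFunc ℚ) h2 ?_ 2 le_rfl _ (stdForm (RatFunc ℚ) 2)
      ⟨std_finrank _ _, stdForm_nonSing _ _ h2, stdForm_witt _ _ h2⟩)
    rw [Nat.card_eq_zero_of_infinite]
    norm_num

end Pool.Agent.Results.MP_4e2054_co.DerivationCover
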